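import Pool.Agent.R254.RB.All

/-!
# MP_1a55bc_pr: population growth of a reinforced branching process under condensation

Full affirmative answer to Q1, in probability: in the condensation case, under (RV) with exponent
`α`, `log N(t) = λ* t - α log t + o(log t)` in probability, and `λ* = γ`.
-/

open MeasureTheory Filter Topology
open scoped ENNReal

namespace Pool.Agent.Results.MP_1a55bc_pr.CondensationGrowth

open Pool.Agent.R254.RB

theorem result {Ω : Type*} [MeasurableSpace Ω] (P : Measure Ω) [IsProbabilityMeasure P]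
    (μ : Measure ℝ) [IsProbabilityMeasure μ] (β γ α : ℝ) (hC : Cond μ β γ α)
    (X : RBP P μ β γ) :
    (∀ ε : ℝ, 0 < ε → Tendsto (fun t : ℝ => P {ω | ¬ (X.pop t ω ≠ ⊤ ∧
      |Real.log (X.pop t ω).toReal - γ * t + α * Real.log t| ≤ ε * Real.log t)}) atTop (𝓝 0)) ∧
    ∀ lam : ℝ, (∀ᵐ ω ∂P, Tendsto (fun t : ℝ => Real.log (X.pop t ω).toReal / t)
      atTop (𝓝 lam)) → lam = γ :=
  all_main X hC

end Pool.Agent.Results.MP_1a55bc_pr.CondensationGrowth
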